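import Pool.Agent.Lib_helper15.Bishop.Defs
import Pool.Agent.Lib_helper93.Bishop.ModD

/-!
# Bishop operators, module U: the orbit function
-/

set_option autoImplicit false

universe u

open MeasureTheory Set Filter
open scoped ENNReal NNReal Topology

namespace Pool.Agent.Bishop
namespace UAux

section basics

variable {X : Type u} [MeasurableSpace X] {μ : Measure X} {τ : Equiv.Perm X}

lemma mp_symm (hτ : MeasurePreserving τ μ μ) (hs : Measurable τ.symm) :
    MeasurePreserving τ.symm μ μ := by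
  refine ⟨hs, ?_⟩
  have h := hτ.map_eq
  conv_lhs => rw [← h]
  rw [Measure.map_map hs hτ.measurable]
  simp

lemma mp_zpow (hτ : MeasurePreserving τ μ μ) (hs : Measurable τ.symm) (n : ℤ) :
    MeasurePreserving (⇑(τ ^ n)) μ μ := by
  induction n using Int.induction_on with
  | zero => simpa using MeasurePreserving.id μ
  | succ n ih =>
    rw [zpow_add, zpow_one]
    exact ih.comp hτ
  | pred n ih =>
    rw [sub_eq_add_neg, zpow_add, zpow_neg_one]
    exact ih.comp (mp_symm hτ hs)

lemma measurable_zpow (hτ : Measurable τ) (hs : Measurable τ.symm) (n : ℤ) :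
    Measurable (⇑(τ ^ n)) := by
  induction n using Int.induction_on with
  | zero => simpa using measurable_id
  | succ n ih =>
    rw [zpow_add, zpow_one]
    exact ih.comp hτ
  | pred n ih =>
    rw [sub_eq_add_neg, zpow_add, zpow_neg_one]
    exact ih.comp hs

lemma measurable_wprod (hτ : Measurable τ) (hs : Measurable τ.symm) {w : X → ℂ}
    (hw : Measurable w) (n : ℤ) : Measurable (wprod w τ n) := by
  unfold wprod
  split_ifs
  · exact Finset.measurable_fun_prod _ fun j _ => hw.comp (measurable_zpow hτ hs _)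
  · exact (Finset.measurable_fun_prod _ fun j _ => hw.comp (measurable_zpow hτ hs _)).inv

end basics

lemma summable_inv_one_add_sq (C : ℝ) : Summable fun n : ℤ => C / (1 + (n : ℝ) ^ 2) := by
  have h1 : Summable fun n : ℤ => 1 / (n : ℝ) ^ 2 := by
    rw [Real.summable_one_div_int_pow]; norm_num
  have h2 : Summable fun n : ℤ => if n = 0 then (1 : ℝ) else 0 :=
    (hasSum_ite_eq 0 (1 : ℝ)).summable
  have h3 : Summable fun n : ℤ => 1 / (1 + (n : ℝ) ^ 2) := by
    refine Summable.of_nonneg_of_le (fun n => by positivity) (fun n => ?_) (h1.add h2)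
    by_cases hn : n = 0
    · simp [hn]
    · simp only [hn, if_false, add_zero]
      have : (0 : ℝ) < (n : ℝ) ^ 2 := by positivity
      gcongr
      linarith
  simpa [div_eq_mul_inv] using h3.mul_left C

lemma coeFn_sum {X : Type u} [MeasurableSpace X] {μ : Measure X} {p : ℝ≥0∞}
    (F : ℤ → Lp ℂ p μ) (s : Finset ℤ) :
    ((∑ m ∈ s, F m : Lp ℂ p μ) : X → ℂ) =ᵐ[μ] fun t => ∑ m ∈ s, (F m : X → ℂ) t := by
  classical
  induction s using Finset.induction_on with
  | empty =>
    simp only [Finset.sum_empty]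
    exact Lp.coeFn_zero ℂ p μ
  | insert a s ha ih =>
    simp only [Finset.sum_insert ha]
    filter_upwards [Lp.coeFn_add (F a) (∑ m ∈ s, F m), ih] with t h1 h2
    rw [h1, Pi.add_apply, h2]

/-- a.e. convergence of a subsequence of the partial sums over `[-k, k]` -/
lemma exists_subseq {X : Type u} [MeasurableSpace X] {μ : Measure X} {p : ℝ≥0∞} [Fact (1 ≤ p)]
    (F : ℤ → Lp ℂ p μ) (A : Lp ℂ p μ) (h : HasSum F A) (ns : ℕ → ℕ) (hns : StrictMono ns) :
    ∃ ks : ℕ → ℕ, StrictMono ks ∧ ∀ᵐ t ∂μ, Tendsto (fun i =>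
      ∑ m ∈ Finset.Icc (-(ns (ks i) : ℤ)) (ns (ks i)), (F m : X → ℂ) t) atTop (𝓝 ((A : X → ℂ) t)) := by
  have h1 : Tendsto (fun i : ℕ => Finset.Icc (-(ns i : ℤ)) (ns i)) atTop atTop :=
    Finset.tendsto_Icc_neg.comp hns.tendsto_atTop
  have h2 : Tendsto (fun i : ℕ => ∑ m ∈ Finset.Icc (-(ns i : ℤ)) (ns i), F m) atTop (𝓝 A) :=
    h.comp h1
  obtain ⟨ks, hks, hae⟩ := (tendstoInMeasure_of_tendsto_Lp h2).exists_seq_tendsto_ae
  refine ⟨ks, hks, ?_⟩
  have hall : ∀ᵐ t ∂μ, ∀ i : ℕ,
      ((∑ m ∈ Finset.Icc (-(ns (ks i) : ℤ)) (ns (ks i)), F m : Lp ℂ p μ) : X → ℂ) t =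
        ∑ m ∈ Finset.Icc (-(ns (ks i) : ℤ)) (ns (ks i)), (F m : X → ℂ) t :=
    ae_all_iff.2 fun i => coeFn_sum F _
  filter_upwards [hae, hall] with t ht1 ht2
  simpa only [ht2] using ht1

end UAux

open UAux in
theorem modU (hD : ModD'.{u}) (hK : ModK.{u}) : ModU.{u} := by
  intro X _ μ τ hτ hs w hw p _ G hG hGf hG0 hGw E C a N hEm hEd hE0 hEb hdisj hN
  obtain ⟨-, -, -, -, -, hw0, hwK⟩ := hK τ
  obtain ⟨s0, hs0⟩ : G.Nonempty := nonempty_of_measure_ne_zero hG0
  have hC : 0 ≤ C := by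
    have h := hEb s0 hs0 0 0 (by simp)
    rw [hw0] at h
    simp only [Complex.zero_im, abs_zero, mul_zero, Real.exp_zero, mul_one, norm_one,
      Int.cast_zero, ne_eq, OfNat.ofNat_ne_zero, not_false_eq_true, zero_pow, add_zero,
      div_one] at h
    exact (norm_nonneg _).trans h
  set S : Set ℂ := {z : ℂ | |z.re| < 2} with hSdef
  have hS : IsOpen S := isOpen_lt (continuous_abs.comp Complex.continuous_re) continuous_const
  set g : ℤ → ℂ → X → ℂ := fun m z => G.indicator fun s => E s (z - m) / wprod w τ (-m) s with hg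
  have hgm : ∀ m z, Measurable (g m z) := fun m z =>
    Measurable.indicator ((hEm _).div (measurable_wprod hτ.measurable hs hw _)) hG
  have hg0 : ∀ m z s, s ∉ G → g m z s = 0 := fun m z s h => indicator_of_notMem h _
  have hg1 : ∀ m z s, s ∈ G → g m z s = E s (z - m) / wprod w τ (-m) s := fun m z s h =>
    indicator_of_mem h _
  have hgd : ∀ m s, DifferentiableOn ℂ (fun z => g m z s) S := by
    intro m s
    by_cases h : s ∈ G
    · simp only [hg1 m _ s h]
      have : Differentiable ℂ fun z : ℂ => E s (z - m) / wprod w τ (-m) s :=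
        ((hEd s).comp (differentiable_id.sub_const _)).div_const _
      exact this.differentiableOn
    · simp only [hg0 m _ s h]
      exact differentiableOn_const _
  have hgb : ∀ m : ℤ, ∀ z ∈ S, ∀ s, ‖g m z s‖ ≤ C / (1 + (m : ℝ) ^ 2) * Real.exp (a * |z.im|) := by
    intro m z hz s
    by_cases h : s ∈ G
    · rw [hg1 m z s h, norm_div]
      have hb := hEb s h (-m) z hz
      have hne : wprod w τ (-m) s ≠ 0 := (hwK w s (hGw s h) (-m)).1
      have hpos : 0 < ‖wprod w τ (-m) s‖ := norm_pos_iff.2 hne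
      rw [div_le_iff₀ hpos]
      have e1 : z + ((-m : ℤ) : ℂ) = z - m := by push_cast; ring
      rw [e1] at hb
      refine hb.trans (le_of_eq ?_)
      push_cast
      ring
    · rw [hg0 m z s h, norm_zero]
      positivity
  have hFex : ∀ m : ℤ, ∃ F : ℂ → Lp ℂ p μ, DifferentiableOn ℂ F S ∧
      (∀ z ∈ S, (F z : X → ℂ) =ᵐ[μ] fun t => g m z ((τ ^ m) t)) ∧
      (∀ z ∈ S, ‖F z‖ ≤ C / (1 + (m : ℝ) ^ 2) * Real.exp (a * |z.im|) *
        max 1 (μ G).toReal) := fun m =>
    hD μ p G hG hGf (⇑(τ ^ m)) (mp_zpow hτ hs m) S hS (g m) (C / (1 + (m : ℝ) ^ 2)) a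
      (by positivity) (fun z _ => hgm m z) (hgd m) (hgb m) (hg0 m)
  choose F hFd hFe hFb using hFex
  have hsumC := summable_inv_one_add_sq C
  have hsumn : ∀ z ∈ S, Summable fun m => ‖F m z‖ := by
    intro z hz
    refine Summable.of_nonneg_of_le (fun _ => norm_nonneg _) (fun m => hFb m z hz) ?_
    exact (hsumC.mul_right _).mul_right _
  have hsum : ∀ z ∈ S, HasSum (fun m => F m z) (∑' m, F m z) := fun z hz =>
    (hsumn z hz).of_norm.hasSum
  refine ⟨fun z => ∑' m, F m z, ?_, ?_, ?_, ?_⟩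
  · -- differentiability
    intro z0 hz0
    set R : ℝ := |z0.im| + 1 with hR
    set S' : Set ℂ := S ∩ {z : ℂ | |z.im| < R} with hS'
    have hS'o : IsOpen S' :=
      hS.inter (isOpen_lt (continuous_abs.comp Complex.continuous_im) continuous_const)
    have hmem : z0 ∈ S' := ⟨hz0, by show |z0.im| < R; rw [hR]; linarith⟩
    have h1 : DifferentiableOn ℂ (fun z => ∑' m, F m z) S' := by
      refine Complex.differentiableOn_tsum_of_summable_norm
        (u := fun m : ℤ => C / (1 + (m : ℝ) ^ 2) * Real.exp (|a| * R) * max 1 (μ G).toReal)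
        ((hsumC.mul_right _).mul_right _) (fun m => (hFd m).mono inter_subset_left) hS'o ?_
      intro m z hz
      refine (hFb m z hz.1).trans ?_
      have h2 : a * |z.im| ≤ |a| * R := by
        calc a * |z.im| ≤ |a| * |z.im| := by gcongr; exact le_abs_self a
          _ ≤ |a| * R := by gcongr; exact hz.2.le
      have h3 : 0 ≤ C / (1 + (m : ℝ) ^ 2) := by positivity
      gcongr
    exact (h1.differentiableAt (hS'o.mem_nhds hmem)).differentiableWithinAt
  · -- functional equation
    intro z hz hz1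
    have hz' : z ∈ S := hz
    have hz1' : z + 1 ∈ S := by simpa [hSdef] using hz1
    have hA := hsum z hz'
    have hB : HasSum (fun m : ℤ => F (m + 1) (z + 1)) (∑' m, F m (z + 1)) :=
      (Equiv.addRight (1 : ℤ)).hasSum_iff.2 (hsum (z + 1) hz1')
    obtain ⟨k1, hk1, hae1⟩ := exists_subseq (fun m => F m z) _ hA id strictMono_id
    obtain ⟨k2, hk2, hae2⟩ := exists_subseq (fun m : ℤ => F (m + 1) (z + 1)) _ hB k1 hk1
    have hae1' := hτ.quasiMeasurePreserving.ae hae1
    have he1 : ∀ᵐ t ∂μ, ∀ m : ℤ, (F m z : X → ℂ) t = g m z ((τ ^ m) t) :=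
      ae_all_iff.2 fun m => hFe m z hz'
    have he1' := hτ.quasiMeasurePreserving.ae he1
    have he2 : ∀ᵐ t ∂μ, ∀ m : ℤ, (F (m + 1) (z + 1) : X → ℂ) t =
        g (m + 1) (z + 1) ((τ ^ (m + 1)) t) :=
      ae_all_iff.2 fun m => hFe (m + 1) (z + 1) hz1'
    filter_upwards [hae1', hae2, he1', he2] with t h1 h2 h3 h4
    have hterm : ∀ m : ℤ, (F (m + 1) (z + 1) : X → ℂ) t = w t * (F m z : X → ℂ) (τ t) := by
      intro m
      rw [h4, h3]
      have hst : (τ ^ m) (τ t) = (τ ^ (m + 1)) t := by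
        rw [zpow_add, zpow_one]; rfl
      rw [hst]
      set s := (τ ^ (m + 1)) t with hsd
      by_cases h : s ∈ G
      · rw [hg1 _ _ s h, hg1 _ _ s h]
        obtain ⟨hne, hrec, -⟩ := hwK w s (hGw s h) (-(m + 1))
        have ht : (τ ^ (-(m + 1))) s = t := by
          rw [hsd, zpow_neg]
          exact Equiv.symm_apply_apply _ _
        rw [ht] at hrec
        have hwt : w t ≠ 0 := by
          have := hGw s h (-(m + 1))
          rwa [ht] at this
        have e1 : (-(m + 1) + 1 : ℤ) = -m := by ring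
        rw [e1] at hrec
        rw [hrec]
        have e2 : z + 1 - ((m + 1 : ℤ) : ℂ) = z - m := by push_cast; ring
        rw [e2]
        field_simp
      · rw [hg0 _ _ s h, hg0 _ _ s h, mul_zero]
    have h1' : Tendsto (fun i => ∑ m ∈ Finset.Icc (-(k1 (k2 i) : ℤ)) (k1 (k2 i)),
        (F m z : X → ℂ) (τ t)) atTop (𝓝 ((∑' m, F m z : Lp ℂ p μ) (τ t))) :=
      h1.comp hk2.tendsto_atTop
    have h5 := h1'.const_mul (w t)
    have h6 : (fun i => w t * ∑ m ∈ Finset.Icc (-(k1 (k2 i) : ℤ)) (k1 (k2 i)),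
        (F m z : X → ℂ) (τ t)) = fun i => ∑ m ∈ Finset.Icc (-(k1 (k2 i) : ℤ)) (k1 (k2 i)),
        (F (m + 1) (z + 1) : X → ℂ) t := by
      funext i
      rw [Finset.mul_sum]
      exact Finset.sum_congr rfl fun m _ => (hterm m).symm
    rw [h6] at h5
    exact tendsto_nhds_unique h2 h5
  · -- bound
    refine ⟨(∑' m : ℤ, C / (1 + (m : ℝ) ^ 2)) * max 1 (μ G).toReal, fun z hz => ?_⟩
    have hz' : z ∈ S := hz
    refine (norm_tsum_le_tsum_norm (hsumn z hz')).trans ?_
    have h1 : ∑' m, ‖F m z‖ ≤ ∑' m : ℤ, C / (1 + (m : ℝ) ^ 2) * Real.exp (a * |z.im|) *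
        max 1 (μ G).toReal :=
      Summable.tsum_le_tsum (fun m => hFb m z hz') (hsumn z hz')
        ((hsumC.mul_right _).mul_right _)
    refine h1.trans (le_of_eq ?_)
    rw [tsum_mul_right, tsum_mul_right]
    ring
  · -- non vanishing
    intro hU0
    have h0S : (0 : ℂ) ∈ S := by simp [hSdef]
    have hA := hsum 0 h0S
    obtain ⟨k1, hk1, hae1⟩ := exists_subseq (fun m => F m 0) _ hA id strictMono_id
    have he1 : ∀ᵐ t ∂μ, ∀ m : ℤ, (F m 0 : X → ℂ) t = g m 0 ((τ ^ m) t) :=
      ae_all_iff.2 fun m => hFe m 0 h0S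
    have hz0 : (((∑' m, F m 0 : Lp ℂ p μ)) : X → ℂ) =ᵐ[μ] 0 := by
      have : (∑' m, F m 0 : Lp ℂ p μ) = 0 := hU0
      rw [this]
      exact Lp.coeFn_zero ℂ p μ
    have hcontra : ∀ᵐ t ∂μ, t ∉ G := by
      filter_upwards [hae1, he1, hz0] with t h1 h2 h3 htG
      rw [h3] at h1
      simp only [id_eq, Pi.zero_apply] at h1
      -- pointwise bounds
      have hterm0 : (F 0 0 : X → ℂ) t = 1 := by
        rw [h2 0, zpow_zero]
        change g 0 0 t = 1
        rw [hg1 0 0 t htG]
        simp [hw0, hE0 t htG]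
      set b : ℤ → ℝ := fun n => if |n| ≤ N then 0 else C / (1 + (n : ℝ) ^ 2) with hb
      have hb0 : ∀ n, 0 ≤ b n := by
        intro n
        simp only [hb]
        split_ifs <;> positivity
      have hbs : Summable b := by
        refine Summable.of_nonneg_of_le hb0 (fun n => ?_) hsumC
        simp only [hb]
        split_ifs
        · positivity
        · exact le_rfl
      have hterm : ∀ m : ℤ, m ≠ 0 → ‖(F m 0 : X → ℂ) t‖ ≤ b m := by
        intro m hm
        rw [h2 m]
        simp only [hb]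
        split_ifs with hmN
        · have hd := hdisj m hm hmN
          have : (τ ^ m) t ∉ G := by
            intro hmem
            exact Set.disjoint_left.1 hd htG hmem
          rw [hg0 m 0 _ this, norm_zero]
        · have := hgb m 0 h0S ((τ ^ m) t)
          simpa using this
      have hpart : ∀ k : ℕ, ‖∑ m ∈ Finset.Icc (-(k : ℤ)) k, (F m 0 : X → ℂ) t - 1‖ ≤ 1 / 2 := by
        intro k
        have h0mem : (0 : ℤ) ∈ Finset.Icc (-(k : ℤ)) k := by
          rw [Finset.mem_Icc]; omega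
        rw [← Finset.add_sum_erase _ _ h0mem, hterm0, add_sub_cancel_left]
        calc ‖∑ m ∈ (Finset.Icc (-(k : ℤ)) k).erase 0, (F m 0 : X → ℂ) t‖
            ≤ ∑ m ∈ (Finset.Icc (-(k : ℤ)) k).erase 0, b m :=
              norm_sum_le_of_le _ fun m hm => hterm m (Finset.ne_of_mem_erase hm)
          _ ≤ ∑' m, b m := hbs.sum_le_tsum _ fun m _ => hb0 m
          _ ≤ 1 / 2 := hN
      have hlim := ((h1.sub_const (1 : ℂ)).norm)
      have hle : ‖(0 : ℂ) - 1‖ ≤ 1 / 2 := le_of_tendsto hlim (Eventually.of_forall fun i => hpart _)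
      norm_num at hle
    have : μ G = 0 := by
      have := ae_iff.1 hcontra
      simpa using this
    exact hG0 this

end Pool.Agent.Bishop
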