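import Pool.Agent.Lib_helper15.Bishop.Defs

/-!
# Bishop operators, module X0: transfer from the circle to the interval `[0,1)`
-/

set_option autoImplicit false

open MeasureTheory Set Filter
open scoped ENNReal NNReal Topology

namespace Pool.Agent.Bishop
namespace X0

/-- Lebesgue measure on `[0,1)` -/
noncomputable abbrev muI : Measure ℝ := (volume : Measure ℝ).restrict (Ico 0 1)

lemma hasHyper_conj {E F : Type*} [NormedAddCommGroup E] [NormedSpace ℂ E]
    [NormedAddCommGroup F] [NormedSpace ℂ F] (e : E ≃L[ℂ] F) (T : E →L[ℂ] E)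
    (h : HasHyper ((e : E →L[ℂ] F) ∘L T ∘L (e.symm : F →L[ℂ] E))) : HasHyper T := by
  obtain ⟨M, hM, hb, ht, hinv⟩ := h
  refine ⟨M.comap (e : E →ₗ[ℂ] F), ?_, ?_, ?_, ?_⟩
  · have : ((M.comap (e : E →ₗ[ℂ] F) : Submodule ℂ E) : Set E) = e ⁻¹' (M : Set F) := rfl
    rw [this]
    exact hM.preimage e.continuous
  · intro h0
    apply hb
    rw [Submodule.eq_bot_iff] at h0 ⊢
    intro x hx
    have := h0 (e.symm x) (by
      rw [Submodule.mem_comap]
      simpa using hx)
    simpa using this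
  · intro h0
    apply ht
    rw [Submodule.eq_top_iff'] at h0 ⊢
    intro x
    have := h0 (e.symm x)
    rw [Submodule.mem_comap] at this
    simpa using this
  · intro A hA x hx
    rw [Submodule.mem_comap] at hx ⊢
    have hcomm : ((e : E →L[ℂ] F) ∘L A ∘L (e.symm : F →L[ℂ] E)) *
        ((e : E →L[ℂ] F) ∘L T ∘L (e.symm : F →L[ℂ] E)) =
        ((e : E →L[ℂ] F) ∘L T ∘L (e.symm : F →L[ℂ] E)) *
        ((e : E →L[ℂ] F) ∘L A ∘L (e.symm : F →L[ℂ] E)) := by
      ext y
      have h1 : (A * T) (e.symm y) = (T * A) (e.symm y) := by rw [hA]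
      simpa using congrArg e h1
    have := hinv _ hcomm _ hx
    simpa using this

lemma mp_mk : MeasurePreserving ((↑) : ℝ → UnitAddCircle) muI volume := by
  have h := UnitAddCircle.measurePreserving_mk 0
  rw [zero_add] at h
  have h2 : (volume : Measure ℝ).restrict (Ioc 0 1) = muI :=
    Measure.restrict_congr_set Ico_ae_eq_Ioc.symm
  rwa [h2] at h

lemma coord_mk {x : ℝ} (hx : x ∈ Ico (0 : ℝ) 1) : coord (x : UnitAddCircle) = x := by
  have h1 : x ∈ Ico (0 : ℝ) (0 + 1) := by simpa using hx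
  unfold coord
  rw [AddCircle.equivIco_coe_eq h1]

lemma mk_coord (t : UnitAddCircle) : ((coord t : ℝ) : UnitAddCircle) = t := by
  unfold coord
  exact AddCircle.coe_equivIco

lemma measurable_coord : Measurable coord :=
  measurable_subtype_coe.comp (AddCircle.measurableEquivIco (1 : ℝ) 0).measurable

lemma coord_mk_fract (x : ℝ) : coord (x : UnitAddCircle) = Int.fract x := by
  have h1 : ((Int.fract x : ℝ) : UnitAddCircle) = (x : UnitAddCircle) := by
    rw [Int.fract, AddCircle.coe_sub]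
    have : (((⌊x⌋ : ℤ) : ℝ) : UnitAddCircle) = 0 := by
      rw [AddCircle.coe_eq_zero_iff]
      exact ⟨⌊x⌋, by simp⟩
    rw [this, sub_zero]
  rw [← h1]
  exact coord_mk ⟨Int.fract_nonneg x, Int.fract_lt_one x⟩

lemma mp_coord : MeasurePreserving coord (volume : Measure UnitAddCircle) muI := by
  refine ⟨measurable_coord, ?_⟩
  have h := mp_mk.map_eq
  rw [← h, Measure.map_map measurable_coord mp_mk.measurable]
  have h2 : (coord ∘ ((↑) : ℝ → UnitAddCircle)) =ᵐ[muI] id := by
    filter_upwards [ae_restrict_mem measurableSet_Ico] with x hx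
    exact coord_mk hx
  rw [Measure.map_congr h2, Measure.map_id]

variable (p : ℝ≥0∞) [Fact (1 ≤ p)]

/-- composition with the covering map -/
noncomputable def JI : Lp ℂ p (volume : Measure UnitAddCircle) →L[ℂ] Lp ℂ p muI :=
  (Lp.compMeasurePreservingₗᵢ ℂ _ mp_mk).toContinuousLinearMap

/-- composition with the coordinate -/
noncomputable def JC : Lp ℂ p muI →L[ℂ] Lp ℂ p (volume : Measure UnitAddCircle) :=
  (Lp.compMeasurePreservingₗᵢ ℂ _ mp_coord).toContinuousLinearMap

lemma JI_coe (f : Lp ℂ p (volume : Measure UnitAddCircle)) :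
    (JI p f : ℝ → ℂ) =ᵐ[muI] fun x => (f : UnitAddCircle → ℂ) (x : UnitAddCircle) :=
  Lp.coeFn_compMeasurePreserving f mp_mk

lemma JC_coe (f : Lp ℂ p muI) :
    (JC p f : UnitAddCircle → ℂ) =ᵐ[volume] fun t => (f : ℝ → ℂ) (coord t) :=
  Lp.coeFn_compMeasurePreserving f mp_coord

/-- the isomorphism -/
noncomputable def eqv : Lp ℂ p muI ≃L[ℂ] Lp ℂ p (volume : Measure UnitAddCircle) :=
  ContinuousLinearEquiv.equivOfInverse (JC p) (JI p)
    (by
      intro f
      refine Lp.ext ?_
      have h1 := mp_mk.quasiMeasurePreserving.ae (JC_coe p f)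
      filter_upwards [JI_coe p (JC p f), h1, ae_restrict_mem measurableSet_Ico] with x h2 h3 h4
      rw [h2, h3, coord_mk h4])
    (by
      intro f
      refine Lp.ext ?_
      have h1 := mp_coord.quasiMeasurePreserving.ae (JI_coe p f)
      filter_upwards [JC_coe p (JI p f), h1] with t h2 h3
      rw [h2, h3, mk_coord])

end X0

open X0 in
/-- (X0) from the circle to the interval. -/
theorem modX0 (p : ℝ≥0∞) [Fact (1 ≤ p)] (α : ℝ)
    (hcirc : ∀ T : Lp ℂ p (volume : Measure UnitAddCircle) →L[ℂ]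
        Lp ℂ p (volume : Measure UnitAddCircle),
      (∀ f, (T f : UnitAddCircle → ℂ) =ᵐ[volume]
        fun t => (coord t : ℂ) * (f : UnitAddCircle → ℂ) (t + (α : UnitAddCircle))) → HasHyper T)
    (T : Lp ℂ p ((volume : Measure ℝ).restrict (Ico 0 1)) →L[ℂ]
        Lp ℂ p ((volume : Measure ℝ).restrict (Ico 0 1)))
    (hT : ∀ f, (T f : ℝ → ℂ) =ᵐ[(volume : Measure ℝ).restrict (Ico 0 1)]
        fun x => (x : ℂ) * (f : ℝ → ℂ) (Int.fract (x + α))) : HasHyper T := by
  refine hasHyper_conj (eqv p) T ?_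
  refine hcirc _ fun f => ?_
  have e1 : ((eqv p : Lp ℂ p muI →L[ℂ] Lp ℂ p (volume : Measure UnitAddCircle)) ∘L T ∘L
      ((eqv p).symm : Lp ℂ p (volume : Measure UnitAddCircle) →L[ℂ] Lp ℂ p muI)) f =
      JC p (T (JI p f)) := rfl
  rw [e1]
  have h1 := mp_coord.quasiMeasurePreserving.ae (hT (JI p f))
  have h2 := ((measurePreserving_add_right (volume : Measure UnitAddCircle)
    (α : UnitAddCircle))).quasiMeasurePreserving.ae
      (mp_coord.quasiMeasurePreserving.ae (JI_coe p f))
  filter_upwards [JC_coe p (T (JI p f)), h1, h2] with t h3 h4 h5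
  rw [h3, h4]
  have h6 : Int.fract (coord t + α) = coord (t + (α : UnitAddCircle)) := by
    rw [← coord_mk_fract, AddCircle.coe_add, mk_coord]
  rw [h6, h5, mk_coord]

end Pool.Agent.Bishop
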