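import Pool.Agent.Lib_helper47.Bishop.Defs

/-!
# Bishop operators, module M9: the transfer inequality for binomial sums
-/

set_option autoImplicit false

open MeasureTheory Metric Set

namespace Pool.Agent.Bishop
namespace M9aux

/-- twisted moments -/
noncomputable def mom (N : ℕ) (u : ℝ) (r : ℕ) : ℂ :=
  ∑ j ∈ Finset.range (2 * N + 1), ((2 * N).choose j : ℂ) / 4 ^ N *
    (ee (((j : ℝ) - N) * u) * ((((j : ℝ) - N : ℝ) : ℂ)) ^ r)

/-- twisted generating function, with `r` derivatives -/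
noncomputable def gen (N : ℕ) (u : ℝ) (r : ℕ) (z : ℂ) : ℂ :=
  ∑ j ∈ Finset.range (2 * N + 1), ((2 * N).choose j : ℂ) / 4 ^ N *
    (ee (((j : ℝ) - N) * u) * (((((j : ℝ) - N : ℝ) : ℂ)) ^ r *
      Complex.exp (((((j : ℝ) - N : ℝ) : ℂ)) * z)))

lemma gen_zero (N : ℕ) (u : ℝ) (r : ℕ) : gen N u r 0 = mom N u r := by
  simp [gen, mom]

lemma gen_hasDeriv (N : ℕ) (u : ℝ) (r : ℕ) (z : ℂ) :
    HasDerivAt (gen N u r) (gen N u (r + 1) z) z := by
  unfold gen
  refine HasDerivAt.fun_sum fun j _ => ?_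
  have h1 : HasDerivAt (fun z : ℂ => Complex.exp (((((j : ℝ) - N : ℝ) : ℂ)) * z))
      (Complex.exp (((((j : ℝ) - N : ℝ) : ℂ)) * z) * (((j : ℝ) - N : ℝ) : ℂ)) z := by
    refine HasDerivAt.cexp ?_
    simpa using (hasDerivAt_id z).const_mul (((j : ℝ) - N : ℝ) : ℂ)
  have h2 := (((h1.const_mul ((((j : ℝ) - N : ℝ) : ℂ) ^ r)).const_mul
    (ee (((j : ℝ) - N) * u))).const_mul (((2 * N).choose j : ℂ) / 4 ^ N))
  refine HasDerivAt.congr_deriv h2 ?_
  ring

lemma iteratedDeriv_gen (N : ℕ) (u : ℝ) (r : ℕ) :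
    iteratedDeriv r (gen N u 0) = gen N u r := by
  induction r with
  | zero => simp
  | succ r ih =>
    rw [iteratedDeriv_succ, ih]
    funext z
    exact (gen_hasDeriv N u r z).deriv

lemma gen_eq (N : ℕ) (u : ℝ) (z : ℂ) :
    gen N u 0 z = Complex.cosh (Real.pi * u * Complex.I + z / 2) ^ (2 * N) := by
  rw [Complex.cosh, div_pow, add_pow, Finset.sum_div]
  unfold gen
  refine Finset.sum_congr rfl fun j hj => ?_
  have hj' : j ≤ 2 * N := by
    have := Finset.mem_range.1 hj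
    omega
  have h4 : (2 : ℂ) ^ (2 * N) = 4 ^ N := by
    rw [pow_mul]; norm_num
  rw [h4, ← Complex.exp_nat_mul, ← Complex.exp_nat_mul, ← Complex.exp_add, ee, pow_zero, one_mul,
    ← Complex.exp_add]
  have : (2 * (Real.pi : ℂ) * Complex.I * ((((j : ℝ) - N) * u : ℝ) : ℂ)) +
      (((j : ℝ) - N : ℝ) : ℂ) * z =
      (j : ℂ) * ((Real.pi : ℂ) * u * Complex.I + z / 2) +
        ((2 * N - j : ℕ) : ℂ) * -((Real.pi : ℂ) * u * Complex.I + z / 2) := by
    rw [Nat.cast_sub hj']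
    push_cast
    ring
  rw [this]
  ring

lemma norm_mom_le_of (N : ℕ) (u ρ B : ℝ) (r : ℕ) (hρ : 0 < ρ)
    (hB : ∀ z : ℂ, ‖z‖ = ρ → ‖Complex.cosh (Real.pi * u * Complex.I + z / 2) ^ (2 * N)‖ ≤ B) :
    ‖mom N u r‖ ≤ r.factorial * B / ρ ^ r := by
  rw [← gen_zero, ← iteratedDeriv_gen]
  refine Complex.norm_iteratedDeriv_le_of_forall_mem_sphere_norm_le r hρ ?_ ?_
  · have : Differentiable ℂ (gen N u 0) := fun z => (gen_hasDeriv N u 0 z).differentiableAt
    exact this.diffContOnCl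
  · intro z hz
    rw [gen_eq]
    exact hB z (by simpa using hz)

lemma normSq_cosh (x y : ℝ) :
    ‖Complex.cosh (x + y * Complex.I)‖ ^ 2 = Real.sinh x ^ 2 + Real.cos y ^ 2 := by
  rw [Complex.cosh_add, Complex.cosh_mul_I, Complex.sinh_mul_I, ← Complex.ofReal_cosh,
    ← Complex.ofReal_sinh, ← Complex.ofReal_cos, ← Complex.ofReal_sin]
  have h : ((Real.cosh x : ℝ) : ℂ) * (Real.cos y : ℝ) + (Real.sinh x : ℝ) *
      (((Real.sin y : ℝ) : ℂ) * Complex.I) =
      ((Real.cosh x * Real.cos y : ℝ) : ℂ) + ((Real.sinh x * Real.sin y : ℝ) : ℂ) * Complex.I := by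
    push_cast; ring
  rw [h, ← Complex.normSq_eq_norm_sq, Complex.normSq_add_mul_I]
  have h1 := Real.cosh_sq x
  have h2 := Real.sin_sq_add_cos_sq y
  have h3 : Real.sin y ^ 2 = 1 - Real.cos y ^ 2 := by linarith
  rw [mul_pow, mul_pow, h1, h3]
  ring

/-- near range: normalised bound. -/
lemma norm_cosh_le_near (u ρ : ℝ) (hu : |u| ≤ 1 / 4) (z : ℂ) (hz : ‖z‖ = ρ) :
    ‖Complex.cosh (Real.pi * u * Complex.I + z / 2)‖ ≤
      Real.cos (Real.pi * u) * Real.exp (ρ / 2) := by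
  have hpu : |Real.pi * u| ≤ Real.pi / 4 := by
    rw [abs_mul, abs_of_pos Real.pi_pos]
    nlinarith [Real.pi_pos]
  have hcs : |Real.sin (Real.pi * u)| ≤ Real.cos (Real.pi * u) := by
    have hc : Real.cos (Real.pi * u) = Real.cos |Real.pi * u| := (Real.cos_abs _).symm
    have hs : |Real.sin (Real.pi * u)| = Real.sin |Real.pi * u| := by
      rcases abs_cases (Real.pi * u) with ⟨h, h'⟩ | ⟨h, h'⟩
      · rw [h, abs_of_nonneg]
        exact Real.sin_nonneg_of_nonneg_of_le_pi h' (by rw [h] at hpu; linarith [Real.pi_pos])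
      · rw [h, Real.sin_neg, abs_of_nonpos]
        refine Real.sin_nonpos_of_nonpos_of_neg_pi_le h'.le ?_
        rw [h] at hpu; linarith [Real.pi_pos]
    rw [hc, hs]
    have h1 : Real.sin |Real.pi * u| ≤ Real.sin (Real.pi / 4) := by
      refine Real.sin_le_sin_of_le_of_le_pi_div_two ?_ ?_ hpu
      · linarith [Real.pi_pos, abs_nonneg (Real.pi * u)]
      · linarith [Real.pi_pos]
    have h2 : Real.cos (Real.pi / 4) ≤ Real.cos |Real.pi * u| := by
      refine Real.cos_le_cos_of_nonneg_of_le_pi (abs_nonneg _) ?_ hpu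
      linarith [Real.pi_pos]
    rw [Real.sin_pi_div_four] at h1
    rw [Real.cos_pi_div_four] at h2
    linarith
  have hcpos : 0 ≤ Real.cos (Real.pi * u) := le_trans (abs_nonneg _) hcs
  set a : ℝ := (z / 2).re with ha
  set b : ℝ := (z / 2).im with hb
  set θ : ℝ := Real.pi * u with hθ
  have he : (Real.pi : ℂ) * u * Complex.I + z / 2 = (a : ℂ) + ((θ + b : ℝ) : ℂ) * Complex.I := by
    conv_lhs => rw [← Complex.re_add_im (z / 2)]
    rw [← ha, ← hb, hθ]
    push_cast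
    ring
  have hw : a ^ 2 + b ^ 2 = (ρ / 2) ^ 2 := by
    have h1 : ‖z / 2‖ = ρ / 2 := by simp [hz]
    rw [← h1, ← Complex.normSq_eq_norm_sq, Complex.normSq_apply, ← ha, ← hb]
    ring
  have hρ : 0 ≤ ρ := by rw [← hz]; exact norm_nonneg z
  have hbρ : |b| ≤ ρ / 2 := abs_le_of_sq_le_sq (by nlinarith [sq_nonneg a]) (by positivity)
  have haρ : |a| ≤ ρ / 2 := abs_le_of_sq_le_sq (by nlinarith [sq_nonneg b]) (by positivity)
  have key : ‖Complex.cosh ((a : ℂ) + ((θ + b : ℝ) : ℂ) * Complex.I)‖ ^ 2 ≤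
      (Real.cos θ * Real.exp (ρ / 2)) ^ 2 := by
    rw [normSq_cosh, mul_pow, ← Real.exp_nat_mul]
    have hexp : Real.cosh (2 * a) + 2 * |b| ≤ Real.exp ((2 : ℕ) * (ρ / 2)) := by
      have h1 : Real.cosh (2 * a) ≤ Real.cosh ρ := by
        rw [Real.cosh_le_cosh, abs_mul, abs_of_pos (by norm_num : (0 : ℝ) < 2),
          abs_of_nonneg hρ]
        linarith
      have h2 : ρ ≤ Real.sinh ρ := Real.self_le_sinh_iff.2 hρ
      have h3 : Real.cosh ρ + Real.sinh ρ = Real.exp ρ := Real.cosh_add_sinh ρ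
      have h4 : ((2 : ℕ) : ℝ) * (ρ / 2) = ρ := by push_cast; ring
      rw [h4]
      linarith
    have hcos : Real.cos (θ + b) ^ 2 ≤ Real.cos θ ^ 2 * (1 + 2 * |b|) := by
      rw [Real.cos_add]
      have hsb : |Real.sin b| ≤ |b| := Real.abs_sin_le_abs
      have h1 : |Real.cos θ * Real.cos b - Real.sin θ * Real.sin b| ≤
          Real.cos θ * (|Real.cos b| + |Real.sin b|) := by
        calc _ ≤ |Real.cos θ * Real.cos b| + |Real.sin θ * Real.sin b| := abs_sub _ _
          _ = Real.cos θ * |Real.cos b| + |Real.sin θ| * |Real.sin b| := by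
            rw [abs_mul, abs_mul, abs_of_nonneg hcpos]
          _ ≤ Real.cos θ * |Real.cos b| + Real.cos θ * |Real.sin b| := by
            gcongr
          _ = _ := by ring
      have h2 : (Real.cos θ * Real.cos b - Real.sin θ * Real.sin b) ^ 2 ≤
          (Real.cos θ * (|Real.cos b| + |Real.sin b|)) ^ 2 := by
        rw [← sq_abs (Real.cos θ * Real.cos b - Real.sin θ * Real.sin b)]
        exact pow_le_pow_left₀ (abs_nonneg _) h1 2
      refine h2.trans ?_
      rw [mul_pow]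
      refine mul_le_mul_of_nonneg_left ?_ (sq_nonneg _)
      have h3 : |Real.cos b| ≤ 1 := Real.abs_cos_le_one b
      have h4 := Real.sin_sq_add_cos_sq b
      have h5 : |Real.cos b| ^ 2 + |Real.sin b| ^ 2 = 1 := by rw [sq_abs, sq_abs]; linarith
      have h6 : |Real.cos b| * |Real.sin b| ≤ |b| := by
        calc |Real.cos b| * |Real.sin b| ≤ 1 * |Real.sin b| := by gcongr
          _ ≤ |b| := by rw [one_mul]; exact hsb
      nlinarith
    have hsinh : Real.sinh a ^ 2 ≤ Real.cos θ ^ 2 * (2 * Real.sinh a ^ 2) := by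
      have h1 : 1 / 2 ≤ Real.cos θ ^ 2 := by
        have h2 := Real.sin_sq_add_cos_sq θ
        have h3 : Real.sin θ ^ 2 ≤ Real.cos θ ^ 2 := by
          rw [← sq_abs (Real.sin θ)]
          exact pow_le_pow_left₀ (abs_nonneg _) hcs 2
        linarith
      nlinarith [sq_nonneg (Real.sinh a)]
    have hcc : Real.cosh (2 * a) = 1 + 2 * Real.sinh a ^ 2 := by
      rw [Real.cosh_two_mul, Real.cosh_sq]; ring
    calc Real.sinh a ^ 2 + Real.cos (θ + b) ^ 2 ≤
        Real.cos θ ^ 2 * (2 * Real.sinh a ^ 2) + Real.cos θ ^ 2 * (1 + 2 * |b|) := by linarith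
      _ = Real.cos θ ^ 2 * (Real.cosh (2 * a) + 2 * |b|) := by rw [hcc]; ring
      _ ≤ _ := mul_le_mul_of_nonneg_left hexp (sq_nonneg _)
  rw [he]
  exact (abs_le_of_sq_le_sq key (by positivity)).trans' (le_abs_self _)

/-- far range. -/
lemma norm_cosh_le_far (u : ℝ) (hu : 1 / 4 ≤ |u|) (hu' : |u| ≤ 1 / 2) (z : ℂ) (hz : ‖z‖ = 1 / 4) :
    ‖Complex.cosh (Real.pi * u * Complex.I + z / 2)‖ ^ 2 ≤ 3 / 4 := by
  set a : ℝ := (z / 2).re with ha
  set b : ℝ := (z / 2).im with hb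
  set θ : ℝ := Real.pi * u with hθ
  have he : (Real.pi : ℂ) * u * Complex.I + z / 2 = (a : ℂ) + ((θ + b : ℝ) : ℂ) * Complex.I := by
    conv_lhs => rw [← Complex.re_add_im (z / 2)]
    rw [← ha, ← hb, hθ]
    push_cast
    ring
  have hw : a ^ 2 + b ^ 2 = (1 / 8) ^ 2 := by
    have h1 : ‖z / 2‖ = 1 / 8 := by simp [hz]; norm_num
    rw [← h1, ← Complex.normSq_eq_norm_sq, Complex.normSq_apply, ← ha, ← hb]
    ring
  have hbρ : |b| ≤ 1 / 8 := abs_le_of_sq_le_sq (by nlinarith [sq_nonneg a]) (by positivity)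
  have haρ : |a| ≤ 1 / 8 := abs_le_of_sq_le_sq (by nlinarith [sq_nonneg b]) (by positivity)
  rw [he, normSq_cosh]
  have hs : Real.sinh a ^ 2 ≤ 1 / 10 := by
    rw [Real.sinh_sq]
    have h1 : Real.cosh a ≤ Real.exp (a ^ 2 / 2) := Real.cosh_le_exp_half_sq a
    have h2 : Real.cosh a ^ 2 ≤ Real.exp (a ^ 2 / 2) ^ 2 :=
      pow_le_pow_left₀ (Real.cosh_pos a).le h1 2
    have h3 : Real.exp (a ^ 2 / 2) ^ 2 ≤ Real.exp (1 / 64) := by
      rw [← Real.exp_nat_mul, Real.exp_le_exp]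
      push_cast
      nlinarith [sq_nonneg b]
    have h4 := Real.add_one_le_exp (-(1 / 64) : ℝ)
    have h5 : Real.exp (-(1 / 64) : ℝ) * Real.exp (1 / 64) = 1 := by
      rw [← Real.exp_add]; norm_num
    have h6 : 0 < Real.exp (1 / 64 : ℝ) := Real.exp_pos _
    nlinarith
  have hc : Real.cos (θ + b) ^ 2 ≤ 5 / 8 := by
    rw [Real.cos_sq]
    have hcy : ∀ y : ℝ, Real.pi / 2 - 1 / 4 ≤ y → y ≤ Real.pi + 1 / 4 → Real.cos y ≤ 1 / 4 := by
      intro y h1 h2
      rcases le_or_gt (Real.pi / 2) y with h | h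
      · have := Real.cos_nonpos_of_pi_div_two_le_of_le h
          (by linarith [Real.pi_gt_three])
        linarith
      · rw [← Real.sin_pi_div_two_sub]
        have := Real.sin_le (x := Real.pi / 2 - y) (by linarith)
        linarith
    have hθ1 : Real.pi / 4 ≤ |θ| := by
      rw [hθ, abs_mul, abs_of_pos Real.pi_pos]
      nlinarith [Real.pi_pos]
    have hθ2 : |θ| ≤ Real.pi / 2 := by
      rw [hθ, abs_mul, abs_of_pos Real.pi_pos]
      nlinarith [Real.pi_pos]
    have hb' := abs_le.1 hbρ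
    have : Real.cos (2 * (θ + b)) ≤ 1 / 4 := by
      rcases abs_cases θ with ⟨h, -⟩ | ⟨h, -⟩
      · rw [h] at hθ1 hθ2
        exact hcy _ (by linarith [hb'.1]) (by linarith [hb'.2])
      · rw [h] at hθ1 hθ2
        rw [← Real.cos_neg]
        exact hcy _ (by linarith [hb'.2]) (by linarith [hb'.1])
    linarith
  linarith

lemma factorial_le_pow_self' (r : ℕ) : (r.factorial : ℝ) ≤ (r : ℝ) ^ r := by
  exact_mod_cast Nat.factorial_le_pow r

lemma mom_near (N : ℕ) (hN : 1 ≤ N) (u : ℝ) (hu : |u| ≤ 1 / 4) (r : ℕ) (hr : 1 ≤ r) :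
    ‖mom N u r‖ ≤ (4 * N : ℝ) ^ r * Real.cos (Real.pi * u) ^ (2 * N) := by
  have hN' : (0 : ℝ) < N := by exact_mod_cast hN
  have hr' : (0 : ℝ) < r := by exact_mod_cast hr
  have hρ : (0 : ℝ) < r / N := by positivity
  have hcpos : 0 ≤ Real.cos (Real.pi * u) := by
    have h := norm_cosh_le_near u 0 hu 0 (by simp)
    have h2 := (norm_nonneg _).trans h
    simpa using h2
  have h := norm_mom_le_of N u (r / N)
    ((Real.cos (Real.pi * u) * Real.exp ((r / N : ℝ) / 2)) ^ (2 * N)) r hρ (by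
      intro z hz
      rw [norm_pow]
      exact pow_le_pow_left₀ (norm_nonneg _) (norm_cosh_le_near u _ hu z hz) _)
  refine h.trans ?_
  have h1 : (Real.exp ((r / N : ℝ) / 2)) ^ (2 * N) = Real.exp 1 ^ r := by
    rw [← Real.exp_nat_mul, ← Real.exp_nat_mul]
    congr 1
    push_cast
    field_simp
  rw [mul_pow, h1, div_pow, div_div_eq_mul_div]
  have he : Real.exp 1 ≤ 4 := by linarith [Real.exp_one_lt_d9]
  have hf := factorial_le_pow_self' r
  rw [div_le_iff₀ (by positivity)]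
  calc (r.factorial : ℝ) * (Real.cos (Real.pi * u) ^ (2 * N) * Real.exp 1 ^ r) * (N : ℝ) ^ r
      ≤ (r : ℝ) ^ r * (Real.cos (Real.pi * u) ^ (2 * N) * 4 ^ r) * (N : ℝ) ^ r := by
        gcongr
    _ = _ := by rw [mul_pow]; ring

lemma mom_far (N : ℕ) (hN : 1 ≤ N) (u : ℝ) (hu : 1 / 4 ≤ |u|) (hu' : |u| ≤ 1 / 2) (r : ℕ) :
    ‖mom N u r‖ ≤ (4 * N : ℝ) ^ r * (3 / 4) ^ N := by
  have hN' : (0 : ℝ) < N := by exact_mod_cast hN
  rcases le_or_gt r N with hrN | hrN
  · have h := norm_mom_le_of N u (1 / 4) ((3 / 4 : ℝ) ^ N) r (by norm_num) (by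
      intro z hz
      rw [norm_pow, pow_mul]
      exact pow_le_pow_left₀ (by positivity) (norm_cosh_le_far u hu hu' z hz) _)
    refine h.trans ?_
    have hf := factorial_le_pow_self' r
    have h2 : (r : ℝ) ^ r ≤ (N : ℝ) ^ r := by
      have : (r : ℝ) ≤ N := by exact_mod_cast hrN
      gcongr
    rw [div_le_iff₀ (by positivity)]
    calc (r.factorial : ℝ) * (3 / 4 : ℝ) ^ N ≤ (N : ℝ) ^ r * (3 / 4 : ℝ) ^ N := by
          gcongr; exact hf.trans h2
      _ = _ := by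
        rw [mul_pow, one_div, inv_pow]
        field_simp
  · have hbd : ‖mom N u r‖ ≤ (N : ℝ) ^ r := by
      unfold mom
      have hone : ∑ j ∈ Finset.range (2 * N + 1), ((2 * N).choose j : ℝ) / 4 ^ N = 1 := by
        rw [← Finset.sum_div]
        have : (∑ j ∈ Finset.range (2 * N + 1), ((2 * N).choose j : ℝ)) = 4 ^ N := by
          have h := Nat.sum_range_choose (2 * N)
          have h4 : (2 : ℕ) ^ (2 * N) = 4 ^ N := by rw [pow_mul]; norm_num
          rw [h4] at h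
          exact_mod_cast h
        rw [this]
        exact div_self (by positivity)
      calc _ ≤ ∑ j ∈ Finset.range (2 * N + 1), ((2 * N).choose j : ℝ) / 4 ^ N * (N : ℝ) ^ r := by
            refine norm_sum_le_of_le _ fun j hj => ?_
            have hj' : (j : ℝ) ≤ 2 * N := by
              have := Finset.mem_range.1 hj
              have h3 : j ≤ 2 * N := by omega
              exact_mod_cast h3
            rw [norm_mul, norm_mul, norm_pow, norm_div, norm_pow]
            have he : ‖ee (((j : ℝ) - N) * u)‖ = 1 := by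
              unfold ee
              rw [show (2 * (Real.pi : ℂ) * Complex.I * ((((j : ℝ) - N) * u : ℝ) : ℂ)) =
                ((2 * Real.pi * (((j : ℝ) - N) * u) : ℝ) : ℂ) * Complex.I by push_cast; ring]
              exact Complex.norm_exp_ofReal_mul_I _
            have hk : ‖((((j : ℝ) - N : ℝ) : ℂ))‖ ≤ N := by
              rw [Complex.norm_real, Real.norm_eq_abs, abs_le]
              constructor
              · have : (0 : ℝ) ≤ j := Nat.cast_nonneg j
                linarith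
              · linarith
            rw [he, one_mul]
            have h5 : ‖(((2 * N).choose j : ℕ) : ℂ)‖ / ‖(4 : ℂ)‖ ^ N =
                ((2 * N).choose j : ℝ) / 4 ^ N := by
              simp
            rw [h5]
            gcongr
        _ = (N : ℝ) ^ r := by rw [← Finset.sum_mul, hone, one_mul]
    refine hbd.trans ?_
    have h1 : (1 : ℝ) ≤ 4 ^ r * (3 / 4) ^ N := by
      have h2 : (4 : ℝ) ^ N ≤ 4 ^ r := pow_le_pow_right₀ (by norm_num) hrN.le
      calc (1 : ℝ) ≤ 3 ^ N := one_le_pow₀ (by norm_num)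
        _ = 4 ^ N * (3 / 4) ^ N := by rw [← mul_pow]; norm_num
        _ ≤ _ := by gcongr
    calc (N : ℝ) ^ r = (N : ℝ) ^ r * 1 := by ring
      _ ≤ (N : ℝ) ^ r * (4 ^ r * (3 / 4) ^ N) := by gcongr
      _ = _ := by rw [mul_pow]; ring

lemma mom_zero (N : ℕ) (u : ℝ) : mom N u 0 = (Real.cos (Real.pi * u) ^ (2 * N) : ℝ) := by
  rw [← gen_zero, gen_eq]
  have : (Real.pi : ℂ) * u * Complex.I + 0 / 2 = ((Real.pi * u : ℝ) : ℂ) * Complex.I := by
    push_cast; ring
  rw [this, Complex.cosh_mul_I, ← Complex.ofReal_cos]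
  push_cast
  rfl

/-- the Taylor terms -/
noncomputable def TT (N : ℕ) (u δ : ℝ) (Ψ : ℂ → ℂ) (r : ℕ) : ℂ :=
  ((r.factorial : ℂ))⁻¹ * iteratedDeriv r Ψ 0 * (δ : ℂ) ^ r * mom N u r

lemma hasSum_TT (N : ℕ) (u δ R : ℝ) (Ψ : ℂ → ℂ) (hR : 0 < R) (hδ : N * |δ| ≤ R / 16)
    (hΨ : DifferentiableOn ℂ Ψ (ball 0 R)) : HasSum (TT N u δ Ψ) (PP N u δ Ψ) := by
  unfold PP
  have h : ∀ j ∈ Finset.range (2 * N + 1), HasSum (fun r : ℕ => ((2 * N).choose j : ℂ) / 4 ^ N *
      (ee (((j : ℝ) - N) * u) * (((r.factorial : ℂ))⁻¹ * (((((j : ℝ) - N) * δ : ℝ) : ℂ) ^ r *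
        iteratedDeriv r Ψ 0))))
      (((2 * N).choose j : ℂ) / 4 ^ N *
        (ee (((j : ℝ) - N) * u) * Ψ ((((j : ℝ) - N) * δ : ℝ) : ℂ))) := by
    intro j hj
    have hmem : ((((j : ℝ) - N) * δ : ℝ) : ℂ) ∈ ball (0 : ℂ) R := by
      rw [mem_ball_zero_iff, Complex.norm_real, Real.norm_eq_abs, abs_mul]
      have hj' : (j : ℝ) ≤ 2 * N := by
        have := Finset.mem_range.1 hj
        have h3 : j ≤ 2 * N := by omega
        exact_mod_cast h3
      have hk : |(j : ℝ) - N| ≤ N := by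
        rw [abs_le]
        constructor
        · have : (0 : ℝ) ≤ j := Nat.cast_nonneg j
          linarith
        · linarith
      calc |(j : ℝ) - N| * |δ| ≤ N * |δ| := by gcongr
        _ ≤ R / 16 := hδ
        _ < R := by linarith
    have h1 := Complex.hasSum_taylorSeries_on_ball hΨ hmem
    have h2 := (h1.mul_left (ee (((j : ℝ) - N) * u))).mul_left (((2 * N).choose j : ℂ) / 4 ^ N)
    simpa [sub_zero, smul_eq_mul] using h2
  have h3 := hasSum_sum h
  have h4 : TT N u δ Ψ = fun r : ℕ => ∑ j ∈ Finset.range (2 * N + 1),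
      ((2 * N).choose j : ℂ) / 4 ^ N *
      (ee (((j : ℝ) - N) * u) * (((r.factorial : ℂ))⁻¹ * (((((j : ℝ) - N) * δ : ℝ) : ℂ) ^ r *
        iteratedDeriv r Ψ 0))) := ?_
  · rw [h4]
    exact h3
  funext r
  unfold TT mom
  rw [Finset.mul_sum]
  refine Finset.sum_congr rfl fun j _ => ?_
  push_cast
  rw [mul_pow]
  ring

lemma norm_TT_le (N : ℕ) (u δ R M Q : ℝ) (Ψ : ℂ → ℂ) (hR : 0 < R)
    (hΨ : DifferentiableOn ℂ Ψ (ball 0 R)) (hM : ∀ z ∈ ball (0 : ℂ) R, ‖Ψ z‖ ≤ M) (r : ℕ)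
    (hQ : ‖mom N u r‖ ≤ (4 * N : ℝ) ^ r * Q) :
    ‖TT N u δ Ψ r‖ ≤ M * Q * (8 * N * |δ| / R) ^ r := by
  have hM0 : 0 ≤ M := (norm_nonneg _).trans (hM 0 (mem_ball_self hR))
  have hcl : closedBall (0 : ℂ) (R / 2) ⊆ ball 0 R := closedBall_subset_ball (by linarith)
  have h1 : ‖iteratedDeriv r Ψ 0‖ ≤ r.factorial * M / (R / 2) ^ r := by
    refine Complex.norm_iteratedDeriv_le_of_forall_mem_sphere_norm_le r (by positivity) ?_ ?_
    · refine DifferentiableOn.diffContOnCl ?_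
      refine hΨ.mono ?_
      exact closure_ball_subset_closedBall.trans hcl
    · intro z hz
      exact hM z (hcl (sphere_subset_closedBall hz))
  have hf : (0 : ℝ) < r.factorial := by exact_mod_cast Nat.factorial_pos r
  unfold TT
  rw [norm_mul, norm_mul, norm_mul, norm_inv, norm_pow, Complex.norm_real, Real.norm_eq_abs]
  have h2 : ‖(r.factorial : ℂ)‖ = r.factorial := by simp
  rw [h2]
  calc (r.factorial : ℝ)⁻¹ * ‖iteratedDeriv r Ψ 0‖ * |δ| ^ r * ‖mom N u r‖
      ≤ (r.factorial : ℝ)⁻¹ * (r.factorial * M / (R / 2) ^ r) * |δ| ^ r *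
        ((4 * N : ℝ) ^ r * Q) := by gcongr
    _ = M * Q * (8 * N * |δ| / R) ^ r := by
      have h3 : (8 * N * |δ| / R) ^ r = (4 * N : ℝ) ^ r * |δ| ^ r / (R / 2) ^ r := by
        rw [← mul_pow, ← div_pow]
        congr 1
        field_simp
        ring
      rw [h3]
      field_simp

end M9aux

open M9aux in
theorem M9 : M9_Stmt := by
  refine ⟨16, by norm_num, ?_⟩
  intro N u δ R M Ψ hN hR hδ hΨ hM
  have hN' : (0 : ℝ) < N := by exact_mod_cast hN
  have hM0 : 0 ≤ M := (norm_nonneg _).trans (hM 0 (mem_ball_self hR))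
  have hS := hasSum_TT N u δ R Ψ hR hδ hΨ
  set x : ℝ := 8 * N * |δ| / R with hx
  have hx0 : 0 ≤ x := by positivity
  have hx1 : x ≤ 1 / 2 := by
    rw [hx, div_le_iff₀ hR]
    nlinarith
  have hinv : (1 - x)⁻¹ ≤ 2 := by
    rw [inv_le_comm₀ (by linarith) (by norm_num)]
    linarith
  constructor
  · intro hu
    set Q : ℝ := Real.cos (Real.pi * u) ^ (2 * N) with hQ
    have hQ0 : 0 ≤ Q := by rw [hQ, pow_mul]; positivity
    have h1 := (hasSum_nat_add_iff' 1).2 hS
    have hT0 : TT N u δ Ψ 0 = (Q : ℂ) * Ψ 0 := by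
      unfold TT
      rw [mom_zero]
      simp [hQ, mul_comm]
    rw [Finset.sum_range_one, hT0] at h1
    have hg : HasSum (fun r : ℕ => M * Q * x * x ^ r) (M * Q * x * (1 - x)⁻¹) :=
      (hasSum_geometric_of_lt_one hx0 (by linarith)).mul_left _
    have h2 := h1.norm_le_of_bounded hg (fun r => by
      have h := norm_TT_le N u δ R M Q Ψ hR hΨ hM (r + 1) (mom_near N hN u hu (r + 1) (by omega))
      refine h.trans (le_of_eq ?_)
      rw [pow_succ]
      ring)
    refine h2.trans ?_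
    have h3 : Q * (16 * (N * |δ| / R) * M) = M * Q * x * 2 := by
      rw [hx]; ring
    rw [h3]
    gcongr
  · intro hu hu'
    have hg : HasSum (fun r : ℕ => M * (3 / 4) ^ N * x ^ r) (M * (3 / 4) ^ N * (1 - x)⁻¹) :=
      (hasSum_geometric_of_lt_one hx0 (by linarith)).mul_left _
    have h2 := hS.norm_le_of_bounded hg (fun r =>
      norm_TT_le N u δ R M ((3 / 4) ^ N) Ψ hR hΨ hM r (mom_far N hN u hu hu' r))
    refine h2.trans ?_
    calc M * (3 / 4) ^ N * (1 - x)⁻¹ ≤ M * (3 / 4) ^ N * 2 := by gcongr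
      _ ≤ 16 * (3 / 4) ^ N * M := by nlinarith [show 0 ≤ M * (3 / 4 : ℝ) ^ N by positivity]

end Pool.Agent.Bishop
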